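import Mathlib
import Pool.Agent.X296.Prod.Family
import Pool.Agent.X296.Prod.TBMembers
import Pool.Agent.X296.Gen.Main

/-!
# Invariant classes of the function fields of the varieties dominated by products of a large family of
simple abelian varieties over a fixed finite field

Over an algebraic closure of the field with `p` elements each abelian variety is isogenous to the
reduction of an abelian variety of CM type (Honda, Tate). So an abelian variety over the field with
`p ^ b` elements is modelled by `RedAV`: a finite product of CM types `(E i, Φ i)` with Weil numbers
`π i ∈ E i` that satisfy the formula of Shimura and Taniyama; its cohomology of degree `n`, with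
coefficients in an algebraically closed field `Ω`, consists of the alternating `n`-forms on
`Ω ⊗ H_1`, on which the Frobenius endomorphism acts by `π`. We fix an isomorphism `ν` of the algebraic
closure of `ℚ_p` with `ℂ`.

The ground field with `q = p ^ a` elements is fixed, and so is no parameter that tends to infinity.
The theorem gives sets `S g` of Frobenius polynomials of absolutely simple ordinary abelian
varieties of dimension `g` over this field (`IsMember`, `IsLargeFamily`), that is, of isogeny classes:

* `S g` has at least `q ^ (g ^ 2 / 4 - C g log g)` members for `g ≥ g0`; the number of all isogeny
  classes of dimension `g` is `q ^ ((1 / 4 + o (1)) g ^ 2)` (DiPippo, Howe; Lipnowski, Tsimerman);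
* different members, of the same or of different dimensions, have CM fields that are not
  isomorphic (no roots of theirs generate the same field);
* each member is the Frobenius polynomial of an abelian variety in the sense of `RedAV`.

Let `𝒞` (`OfMembers`) be the class of the abelian varieties `Y` each of whose factors is
supersingular or isogenous, over a finite extension, to a power of a member: `Y` is, over an
algebraic closure, isogenous to a product of arbitrary powers of any finite number of members, of
any dimensions, and of a supersingular abelian variety.

`Homology Ω V` are data of motivic homology `M X i j = H_i^M(X, ℚ(j)) = CH_j(X, i - 2 j) ⊗ ℚ` and of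
`ℓ`-adic homology `E X i j = H_i(X, ℚ_ℓ(j))` (coefficients extended to `Ω`) of schemes `X` of finite
type over a finite field (the elements of `V`), with the Frobenius and the regulator. Let `𝒢` be the
smallest class (`Generated`) of such schemes that contains those with the homology groups of abelian
varieties in `𝒞` (`IsAbelianOfMembers`), that is closed under direct summands of finite sums of
twists of motives, and that contains all of a closed subscheme `Z` of `X`, `X` and `X ∖ Z` if it
contains two of them. Let `𝒮` be the smallest class (`Spread`) that contains `𝒢`, the images of its
members under proper morphisms (`IsImage`), their open subschemes, unions of a closed and an open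
member, and summands. So `𝒮` contains for instance all varieties which are dominated by a product of
members, or by a product of curves with Jacobians in `𝒞`, in particular all varieties birational to
such products, and their quotients by finite groups.

Let `X` in `𝒮` be irreducible of dimension `d`. For the system of the open subschemes `U` of `X` over
the finite field (`Opens`, `IsGeneric`) the direct limit of the groups `E U n j` is the cohomology
`H^i(F_0 X, ℚ_ℓ(c))` of the generic point, for `n = 2 d - i` and `j = d - c`, and the direct limit
of the groups `M U n j` is `CH^c(Spec k(X), 2 c - i) ⊗ ℚ`. The theorem is the assertion of the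
problem in all degrees `i ≥ 2 c`:

* each invariant element of `H^i(F_0 X, ℚ_ℓ(c))` is in the span of the image of the higher Chow group;
* it is zero if `i > 2 c` or `c > 0`, as it must be since `CH^c(Spec K, 2 c - i) = 0` for a field `K`.

For `i > 2 c` this is a consequence of the weights; the case `i = 2 c > 2` is the new one.

Properties of the theory of cycles that are used for the abelian varieties (`IsChow`,
`IsMotivic`): Poincaré duality, the formal properties of correspondences, the nilpotence of
homologically trivial correspondences (Kimura), the operation of the Frobenius endomorphism on higher
Chow groups, the vanishing of the higher rational `K`-groups of a finite field (Quillen), and the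
algebraicity of the classes in `Alg` (of which only products of classes of divisors matter here,
theorem of Tate). `HasWeights` are the bounds of Deligne for the weights and the vanishing of the
Chow groups `CH_j(X, n - 2 j)` for `n < 2 j`.

The proof: the members are constructed with an auxiliary prime number `l` such that an inertia
element at `l` exchanges the two elements of one complex conjugate pair of roots of each member and
fixes all the other roots, for all members at the same time. As the fields of different members are
different, a Galois element separates these pairs, and it follows that all multiplicative relations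
between the roots of any finite number of members come from the complex conjugate pairs
(`Pool.Agent.X296.Prod`).
-/

namespace Pool.Agent.Results.MP_677d84_ag.FixedFieldProducts

open Polynomial Pool.Agent.X296.Prod Pool.Agent.X296.Gen

open Pool.Agent.W495.TA Pool.Agent.W495.FM

/-- The invariant classes of the generic points of the `X` in the class `𝒮` of the members. -/
def Holds {p : ℕ} [Fact p.Prime] (ν : PadicAlgCl p ≃+* ℂ) (a : ℕ) (S : Set ℤ[X]) : Prop :=
  ∀ (Ω : Type) [Field Ω] [IsAlgClosed Ω] [CharZero Ω] (V : Type) (T : Homology Ω V), IsHomology T →
    HasWeights T → ∀ X : V, Spread T (Generated T (IsAbelianOfMembers ν a S T)) X →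
    ∀ (ι : Type) [Preorder ι] (D : Opens T X ι) (d : ℤ), IsGeneric D d →
    ∀ (k : ι) (n j : ℤ), n ≤ 2 * j → ∀ e : T.E (D.U k) n j, LimitInvariant D e →
      LimitAlgebraic D e ∧ (n < 2 * j ∨ j < d → LimitZero D e)

theorem holds_of {p : ℕ} [Fact p.Prime] {ν : PadicAlgCl p ≃+* ℂ} {a : ℕ} {S : Set ℤ[X]}
    (h : ∀ Y : RedAV p ν, OfMembers a S Y → TH117.BL.HasElementaryRelations Y) :
    Holds ν a S := by
  intro Ω _ _ _ V T hT hW X hX ι _ D d hD k n j hn e he
  have hO : ∀ k i, IsOnto T (D.U k) i := onto_opens hT hW
    (fun X h1 i => ((tb_members h hT h1).iso hT i).1) hX hD
  exact ⟨algebraic_of_onto hW hD hO hn e he, fun hj => zero_of_onto hT hW hD hO hn hj e he⟩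

/-- **The main theorem.** -/
theorem result (p : ℕ) [Fact p.Prime] (a : ℕ) (ha : 1 ≤ a) :
    ∃ (C : ℝ) (g0 : ℕ) (S : ℕ → Finset ℤ[X]), IsLargeFamily p a C g0 S ∧
      ∀ ν : PadicAlgCl p ≃+* ℂ, Holds ν a {P | ∃ g, P ∈ S g} := by
  obtain ⟨C, g0, S, h1, h2⟩ := exists_largeFamily p a ha
  exact ⟨C, g0, S, h1, fun ν => holds_of (h2 ν)⟩

end Pool.Agent.Results.MP_677d84_ag.FixedFieldProducts
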