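import Pool.Agent.H313.GE.Any

/-!
# The conjecture of Tate for the function fields of coverings

Let `k` be a field with `q` elements, `ℓ` a prime, `Z` the smooth projective variety over `k` of dimension
`n` with the equations `G i = 0`, and `F i` (`i < m`) forms whose divisors `D_i` on `Z` are smooth and
ample with normal crossings, and of degrees divisible by `N_i = ℓ ^ (a i)`, a divisor of `q - 1`. Let
`𝒴 → Z` be a smooth projective family of varieties, for example `Y × Z` for any smooth projective variety
`Y` over `k`. For an extension `k'` of `k` with `q'` elements and `v = (v i)`, `v i` not zero in `k'`, let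
`Z_v` be the covering `w_i ^ (N_i) = v_i F_i` (`i < m`) of `Z` over `k'`, and `X_v` the fibre product of
`𝒴` and `Z_v` over `Z`, a smooth projective variety over `k'`. Let `X_v'` be the open subset of `X_v` over
the complement of all the `D_i`, and `𝒴'` the one of `𝒴`.

The cohomology of `X_v` in the degree `n + w` is the one of `𝒴` plus the direct sum over the `j = (j i)`,
`0 ≤ j i < N_i`, not all zero, of the cohomology of degree `n` with compact support of
`R ^ w ⊗ L_j` on the open subset of `Z` where the `F i` with `j i ≠ 0` are not zero, up to the other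
`w`. Here `L_j` is the tensor product of the Kummer sheaves of the characters `χ i ^ (j i)` for the `F i`,
and `R ^ w` is the local system of the cohomology of degree `w` of the fibres of `𝒴`. The cohomology with
compact support of `X_v'` is described in the same way, with the open subset where all the `F i` are
not zero, for all `j`. In both cases the `x j i` are the eigenvalues of the Frobenius of `k`, for
`v = (1, …, 1)`, and those of the Frobenius of `k'` for `X_v` are the `(x j i) ^ r` times the product of
the `(χ l ^ (j l)) (N (v l))`, where `r` is the degree of `k'` and `N` the norm from `k'` to `k`.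
-/

set_option autoImplicit false
set_option linter.all false
set_option maxHeartbeats 4000000

open Polynomial NumberField Module

namespace Pool.Agent.Results.MP_677d84_ag.FunctionFieldsOfCoverings

open Pool.Agent.H313.GE.Pts

/-- The set of the `i` with `j i ≠ 0`. -/
def supp {m : ℕ} {N : Fin m → ℕ} (j : ∀ i, Fin (N i)) : Finset (Fin m) :=
  Finset.univ.filter fun i => (j i : ℕ) ≠ 0

open Classical in
/-- The set of the `j ≠ 0`. -/
noncomputable def nonzero {m : ℕ} (N : Fin m → ℕ) : Finset (∀ i, Fin (N i)) :=
  Finset.univ.filter fun j => (supp j).Nonempty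

/-- The number of the pairs of a `j ≠ 0` and an index `i` such that the eigenvalue
`(x j i) ^ r χ_j(N v)` of the Frobenius of the extension `k'` of degree `r` is `q' ^ c = (q ^ c) ^ r` for
some `c ≥ 0`, where `χ_j(N v)` is the product of the `(χ l ^ (j l)) (N (v l))`. -/
noncomputable def newClasses {k K : Type} [Field k] [Field K] [NumberField K] {m : ℕ}
    {N : Fin m → ℕ} (χ : Fin m → MulChar k (𝓞 K)) (d : (∀ i, Fin (N i)) → ℕ)
    (x : ∀ j : (∀ i, Fin (N i)), Fin (d j) → 𝓞 K)
    {k' : Type} [Field k'] [Algebra k k'] (v : Fin m → k'ˣ) : ℕ :=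
  ∑ j ∈ nonzero N, Nat.card {i : Fin (d j) // ∃ c : ℕ, x j i ^ finrank k k' *
    ∏ l, (χ l ^ (j l : ℕ)) (Algebra.norm k (v l : k')) = ((Nat.card k : 𝓞 K) ^ c) ^ finrank k k'}

/-- **The conjecture of Tate for the function fields of coverings.**

For `j ≠ 0` let `J j` be the set of the `i` with `j i ≠ 0` (for the variety `X_v`), or the set of all `i`
(for the open variety `X_v'`), or any set between them, and let the product of the factors
`P z (T ^ (deg z))` over the closed points `z` of `Z` such that `F i`, `i` in `J j`, are not zero at `z`,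
or its inverse if `n` is odd, be modulo `ℓ` a polynomial `H I`, `I = J j`, which is the product
of the cyclotomic polynomials `Φ_N` for `N` in a multiset `t I` and of a polynomial `H' I` which is not
divisible by any `Φ_N` with `N` prime to `ℓ`. Let `μ I` be the sum of the `φ(N)`, `N` in `t I`.
Then for all finite extensions `k'` of `k`, with `q'` elements:

1. For all `v` the number `newClasses` of the new eigenvalues which are powers of `q'`, for all powers
together and with multiplicities, is at most the sum of the `μ (J j)` over the `j ≠ 0`.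

2. The average of this number over all `v` is at most the sum of the `μ (J j) / ord(j)`, where `ord(j)`
is the order of the tuple of the characters `χ i ^ (j i)`.

So if the sum in 1. is zero, then for all `k'` and `v`, and if the sum in 2. is `ε < 1`, then for at least
the proportion `1 - ε` of the `v` for every `k'`, the number is zero, and the following holds.

(a) For `J j` the set of the `i` with `j i ≠ 0`, and `w = 2 c - n`: all classes in
`H ^ (2 c) (X_v) (c)` in the generalized eigenspace for the eigenvalue `1` come from `𝒴`. So for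
the bidegree `(2 c, c)`, `c ≥ 1`, the statement of the problem for the function field of `𝒴` over
`k'` implies the one for the function field of `X_v`: the Galois invariants of
`H ^ (2 c) (F_0 X_v) (c)` are zero (they have weight `0`, and are in the image of the cohomology
of `X_v`). For `𝒴 = Y × P ^ n` with any smooth projective variety `Y` of dimension less than `2 c` this
holds without any hypothesis on `Y`, for the cohomology of degree `2 c` of `Y × P ^ n` is supported
in codimension one.

(b) For `J j` the set of all `i`, if the number is zero for all `w`: for all bidegrees `(a, b)` all the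
Galois invariant classes in `H ^ a (X_v') (b)` come from `𝒴'` (by Poincaré duality, the eigenvalues on
the cohomology with compact support being integral), so their restrictions to the function field of
`X_v` are in the image of the higher Chow group, if this is so for `𝒴'`.

The coefficients may be the `l`-adic numbers for any prime `l` different from the characteristic. -/
theorem result (ℓ : ℕ) (hℓ : ℓ.Prime) (k : Type) [Field k] [Finite k]
    (K : Type) [Field K] [NumberField K] [IsGalois ℚ K] (M s m n : ℕ)
    (G : Fin s → MvPolynomial (Fin (M + 1)) k) (F : Fin m → MvPolynomial (Fin (M + 1)) k)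
    (P : Pt G → ℤ[X]) (hP : ∀ z, (P z).coeff 0 = 1)
    (a : Fin m → ℕ) (χ : Fin m → MulChar k (𝓞 K)) (hχ : ∀ i, orderOf (χ i) = ℓ ^ a i)
    (J : (∀ i, Fin (ℓ ^ a i)) → Finset (Fin m)) (hJ : ∀ j, supp j ⊆ J j)
    (d : (∀ i, Fin (ℓ ^ a i)) → ℕ) (x : ∀ j : (∀ i, Fin (ℓ ^ a i)), Fin (d j) → 𝓞 K)
    (hx : ∀ j, (supp j).Nonempty →
      IsSigned n (twistedProduct G F P (fun i => χ i ^ (j i : ℕ)) (J j))
        (∏ i, (1 - C (x j i) * X)))
    (H H' : Finset (Fin m) → (ZMod ℓ)[X]) (t : Finset (Fin m) → Multiset ℕ)
    (hH : ∀ j, (supp j).Nonempty → IsSigned n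
      (PowerSeries.map (Int.castRingHom (ZMod ℓ)) (openProduct G F P (J j))) (H (J j)))
    (ht : ∀ j, (supp j).Nonempty → (∀ N ∈ t (J j), 0 < N) ∧
      H (J j) = ((t (J j)).map fun N => cyclotomic N (ZMod ℓ)).prod * H' (J j) ∧
      NoCyclotomic ℓ (H' (J j)))
    (μ : Finset (Fin m) → ℕ) (hμ : ∀ I, μ I = ((t I).map Nat.totient).sum)
    (k' : Type) [Field k'] [Finite k'] [Algebra k k'] :
    (∀ v : Fin m → k'ˣ, newClasses χ d x v ≤ ∑ j ∈ nonzero fun i => ℓ ^ a i, μ (J j)) ∧
    ∑ᶠ v : Fin m → k'ˣ, (newClasses χ d x v : ℚ) ≤ ((Nat.card k' - 1 : ℕ) : ℚ) ^ m *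
      ∑ j ∈ nonzero fun i => ℓ ^ a i,
        (μ (J j) : ℚ) / (orderOf fun i => χ i ^ (j i : ℕ) : ℕ) := by
  classical
  have hF : Fact ℓ.Prime := ⟨hℓ⟩
  have := Fintype.ofFinite (Fin m → k'ˣ)
  have hr : 0 < finrank k k' := Module.finrank_pos
  have hone : ∀ i, χ i ^ ℓ ^ a i = 1 := fun i => by rw [← hχ i, pow_orderOf_eq_one]
  set e : ℕ := ∏ i, ℓ ^ a i with he
  have he0 : 0 < e := Finset.prod_pos fun i _ => pow_pos hℓ.pos _
  have hψe : ∀ j : (∀ i, Fin (ℓ ^ a i)), (fun i => χ i ^ (j i : ℕ)) ^ e = 1 := by
    intro j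
    funext i
    rw [Pi.pow_apply, Pi.one_apply]
    obtain ⟨d, hd⟩ := Finset.dvd_prod_of_mem (fun i => ℓ ^ a i) (Finset.mem_univ i)
    rw [he, hd, ← pow_mul, mul_comm (j i : ℕ), mul_assoc, pow_mul, hone i, one_pow]
  have hq1 : 1 < Nat.card k := Finite.one_lt_card
  have key : ∀ j ∈ nonzero (fun i => ℓ ^ a i),
      (∀ v : Fin m → k'ˣ, Nat.card {i : Fin (d j) // ∃ c : ℕ, x j i ^ finrank k k' *
        ∏ l, (χ l ^ (j l : ℕ)) (Algebra.norm k (v l : k')) =
          ((Nat.card k : 𝓞 K) ^ c) ^ finrank k k'} ≤ μ (J j)) ∧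
      (∑ v : Fin m → k'ˣ, Nat.card {i : Fin (d j) // ∃ c : ℕ, x j i ^ finrank k k' *
        ∏ l, (χ l ^ (j l : ℕ)) (Algebra.norm k (v l : k')) =
          ((Nat.card k : 𝓞 K) ^ c) ^ finrank k k'}) *
        orderOf (fun i => χ i ^ (j i : ℕ)) ≤ (Nat.card k' - 1) ^ m * μ (J j) := by
    intro j hj
    have hj' : (supp j).Nonempty := (Finset.mem_filter.1 hj).2
    obtain ⟨i, hi⟩ := hj'
    have hai : a i ≠ 0 := by
      intro h1
      have h2 := (j i).2
      have h3 : (j i : ℕ) ≠ 0 := (Finset.mem_filter.1 hi).2
      have h4 : ℓ ^ a i = 1 := by rw [h1, pow_zero]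
      omega
    have hdk : ℓ ∣ Nat.card k - 1 :=
      (dvd_pow_self ℓ hai).trans (Pool.Agent.TH639.CK.card_dvd (hχ i))
    have hk1 : (Nat.card k : ZMod ℓ) = 1 := by
      have h1 : 1 ≤ Nat.card k := Nat.card_pos
      have h2 : ((Nat.card k - 1 : ℕ) : ZMod ℓ) = 0 := (ZMod.natCast_eq_zero_iff _ _).2 hdk
      rw [Nat.cast_sub h1, Nat.cast_one, sub_eq_zero] at h2
      exact h2
    have hj'' : (supp j).Nonempty := ⟨i, hi⟩
    obtain ⟨ht0, htH, htN⟩ := ht j hj''
    have hmod := (twisted_mod G F P hP (fun i => χ i ^ (j i : ℕ)) (J j) a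
      (fun i _ => by rw [← pow_mul, mul_comm, pow_mul, hone i, one_pow]) (hx j hj'')
      (hH j hj'')).2
    rw [hμ]
    have h1 := Pool.Agent.H313.GE.avg_any (A := 𝓞 K) (fun i => χ i ^ (j i : ℕ)) he0 (hψe j) k'
      (x j) hq1 hr ((t (J j)).map Nat.totient).sum (fun S hS =>
        Pool.Agent.H313.GE.any_count (x j) (H (J j)) hmod ht0 htH htN
          (by omega) hk1 S hS)
    rw [Fintype.card_fin] at h1
    exact h1
  refine ⟨?_, ?_⟩
  · intro v
    unfold newClasses
    exact Finset.sum_le_sum fun j hj => (key j hj).1 v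
  · rw [finsum_eq_sum_of_fintype]
    have h1 : ∑ v : Fin m → k'ˣ, (newClasses χ d x v : ℚ) = ∑ j ∈ nonzero fun i => ℓ ^ a i,
        ((∑ v : Fin m → k'ˣ, Nat.card {i : Fin (d j) // ∃ c : ℕ, x j i ^ finrank k k' *
          ∏ l, (χ l ^ (j l : ℕ)) (Algebra.norm k (v l : k')) =
            ((Nat.card k : 𝓞 K) ^ c) ^ finrank k k'} : ℕ) : ℚ) := by
      rw [← Nat.cast_sum, ← Nat.cast_sum, Finset.sum_comm]
      rfl
    rw [h1, Finset.mul_sum]
    refine Finset.sum_le_sum fun j hj => ?_
    have h3 : 0 < orderOf (fun i => χ i ^ (j i : ℕ)) :=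
      orderOf_pos_iff.2 (isOfFinOrder_iff_pow_eq_one.2 ⟨e, he0, hψe j⟩)
    rw [← mul_div_assoc, le_div_iff₀ (by exact_mod_cast h3)]
    exact_mod_cast (key j hj).2

end Pool.Agent.Results.MP_677d84_ag.FunctionFieldsOfCoverings
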