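import Pool.Agent.H313.GE.Cmt
import Pool.Agent.H313.GE.Avm

/-!
# The conjecture of Tate for the function fields of the quotients `(X_v × X_v') / G`

Here `X_v` is an abelian covering with the group `G` of the smooth projective variety `Z`.

Let `k` be a field with `q` elements, `Z` the smooth projective variety over `k` of dimension `n` with
the equations `G i = 0`, `ℓ` a prime, `F i` (`i < m`) forms of degrees divisible by `N_i = ℓ ^ (a i)`, such
that their divisors on `Z` are smooth and ample with normal crossings, and `χ i` characters of the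
multiplicative group of `k` of the orders `N_i` (which divide `q - 1`). For an extension `k'` of `k` of
degree `r` and `v = (v i)`, `v i` not zero in `k'`, let `X_v` be the covering `w_i ^ (N_i) = v_i F_i`
(`i < m`) of `Z` over `k'`, a smooth projective variety with an action of `𝔾 = ∏ μ_(N_i)`. For `v` and
`v'` let `Y` be the quotient of `X_v × X_v'` by the diagonal action of `𝔾`: a singular projective
variety of dimension `2 n`, the covering of `Z × Z` with the equations
`w_i ^ (N_i) = (v_i / v'_i) (F_i (x) / F_i (y))`.

For `j = (j i)`, `0 ≤ j i < N_i`, let `I(j)` be the set of the `i` with `j i ≠ 0`, and `L_j` the tensor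
product over `i ∈ I(j)` of the Kummer sheaves of the characters `χ i ^ (j i)` for `F i`, on the open
subset `U_j` of `Z` where these `F i` are not zero. For `I(j)` not empty the cohomology with compact
supports of `L_j` is zero outside of the degree `n`. Let `U j = H ^ n_c (U_j, L_j)`, with Frobenius `Φ j`;
the polynomial `det (1 - T Φ j)` is the product `twistedProduct` (for `P z = 1 - T`), or its inverse if
`n` is odd. The Frobenius of `k'` acts on the corresponding part of `H ^ n (X_v)` as `χ_j(N v) (Φ j) ^ r`
(`frobenius`), where `N` is the norm from `k'` to `k` and `χ_j(N v)` the product of the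
`χ i ^ (j i) (N (v i))`. By the theorem of Künneth and duality the cohomology of `Y` is the one of
`Z × Z`, and in the degree `2 n` also the direct sum of the spaces `Hom (U j, U j) (-n)` for `I(j)` not
empty, where a homomorphism `g` belongs to a Tate class over `k'` if and only if it commutes with the
Frobenius endomorphisms of `X_v` and `X_v'`.

Let `K` be the function field `k'(Z × Z) (((v_i / v'_i) (F_i (x) / F_i (y))) ^ (1 / N_i), i < m)` of `Y`
(if `Y` is irreducible). The part of weight zero of `H ^ (2 c) (K, ℚ_ℓ (c))` is a quotient of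
`H ^ (2 c) (Y, ℚ_ℓ (c))`, in which the classes of the algebraic cycles of codimension `c > 0` vanish. So
if the generalized eigenspace of the Frobenius for the eigenvalue `1` in `H ^ (2 c) (Y) (c)` is spanned
by classes of algebraic cycles, then the invariants in `H ^ (2 c) (K, ℚ_ℓ (c))` are zero for `c > 0`, as
the conjecture predicts. For `c ≠ n` this space is the one of `Z × Z`. In the Theorem the eigenvalues
of `Φ j` are distinct, so that a generalized eigenvector for the eigenvalue `1` in the sum of the
`Hom (U j, U j)` is fixed.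

More generally let `𝒴 → Z` be a family of smooth projective varieties, `R` one of its sheaves
`R ^ d`, `P z = det (1 - T Frob)` on the fibre of `R` at `z`, and `U j = H ^ n_c (U_j, R ⊗ L_j)`; then this
describes a part of the cohomology of the quotient of the product of the fibre products of `𝒴` with
`X_v` and `X_v'` over `Z`.
-/

set_option autoImplicit false
set_option linter.all false
set_option maxHeartbeats 4000000

open Polynomial NumberField Module

namespace Pool.Agent.Results.MP_677d84_ag.QuotientsOfSelfProducts

open Pool.Agent.H313.GE.Pts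

/-- The set of the `i` with `j i ≠ 0`. -/
def supp {m : ℕ} {N : Fin m → ℕ} (j : ∀ i, Fin (N i)) : Finset (Fin m) :=
  Finset.univ.filter fun i => (j i : ℕ) ≠ 0

/-- The root of unity `χ_j(N v)`. -/
noncomputable def value {k K E : Type} [Field k] [Field K] [NumberField K] [Field E]
    {m : ℕ} {N : Fin m → ℕ} (χ : Fin m → MulChar k (𝓞 K)) (φ : 𝓞 K →+* E) {k' : Type} [Field k']
    [Algebra k k'] (v : Fin m → k'ˣ) (j : ∀ i, Fin (N i)) : E :=
  φ (∏ i, (χ i ^ (j i : ℕ)) (Algebra.norm k (v i : k')))

/-- The Frobenius `χ_j(N v) (Φ j) ^ r` of the extension `k'` of `k` of degree `r` on the part `j` of the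
cohomology of `X_v`. -/
noncomputable def frobenius {k K E : Type} [Field k] [Field K] [NumberField K] [Field E]
    {m : ℕ} {N : Fin m → ℕ} (χ : Fin m → MulChar k (𝓞 K)) (φ : 𝓞 K →+* E)
    {U : (∀ i, Fin (N i)) → Type} [∀ j, AddCommGroup (U j)] [∀ j, Module E (U j)]
    (Φ : ∀ j, Module.End E (U j)) {k' : Type} [Field k'] [Algebra k k'] (v : Fin m → k'ˣ)
    (j : ∀ i, Fin (N i)) : Module.End E (U j) :=
  value χ φ v j • Φ j ^ finrank k k'

/-- **The conjecture of Tate for the function fields of the quotients `(X_v × X_v') / G`.**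

For every nonempty set `I` of indices `i` let the product of the `P z (T ^ (deg z))` over the closed
points `z` of `Z` where the `F i`, `i ∈ I`, are not zero, or its inverse if `n` is odd, be modulo `ℓ` a
polynomial `H I`, of which the degree is the dimension of the spaces `U j` with `I(j) = I`. If it is the
product of the `1 - c_i T`, let `W I` be the product of the `1 - (c_i / c_i') T` over the pairs `i ≠ i'`,
and suppose that no cyclotomic polynomial `Φ_N`, `N` prime to `ℓ`, divides `W I` modulo `ℓ`.

Then for all finite extensions `k'` of `k`, all `v`, `v'` and `j` with `I(j)` not empty, every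
endomorphism of `U j` which commutes with the Frobenius endomorphisms of `X_v` and `X_v'` is a
polynomial in `(Φ j) ^ r`, and it is zero if `χ_j(N v) ≠ χ_j(N v')`.

If `χ_j(N v) = χ_j(N v')`, the quotients of the coverings `X_v` and `X_v'` by the kernel of the character
of `𝔾` which belongs to `j` are isomorphic over `k'`. So all these Tate classes are linear combinations
of the classes of the images in `Y` of the graphs of powers of the Frobenius endomorphism and of
elements of `𝔾`, and are algebraic. Therefore the invariants in `H ^ (2 c) (K, ℚ_ℓ (c))`, `c > 0`, `K` the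
function field of `Y`, come from the ones of the function field of `Z × Z` for all finite extensions
`k'`: they are zero for all `c > 0` if `Z` is the projective space, for the fields
`K = k'(x, y) ((u_i F_i (x) / F_i (y)) ^ (1 / N_i), i < m)`. The condition does not depend on the
exponents `a i`. -/
theorem result (ℓ : ℕ) [Fact ℓ.Prime] (k : Type) [Field k] [Finite k]
    (K : Type) [Field K] [NumberField K] (M s m n : ℕ)
    (G : Fin s → MvPolynomial (Fin (M + 1)) k) (F : Fin m → MvPolynomial (Fin (M + 1)) k)
    (P : Pt G → ℤ[X]) (hP : ∀ z, (P z).coeff 0 = 1)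
    (a : Fin m → ℕ) (χ : Fin m → MulChar k (𝓞 K)) (hχ : ∀ i, orderOf (χ i) = ℓ ^ a i)
    (E : Type) [Field E] [CharZero E] [IsAlgClosed E] (φ : 𝓞 K →+* E)
    (U : (∀ i, Fin (ℓ ^ a i)) → Type) [∀ j, AddCommGroup (U j)] [∀ j, Module E (U j)]
    [∀ j, FiniteDimensional E (U j)] (Φ : ∀ j, Module.End E (U j))
    (hΦ : ∀ j, (supp j).Nonempty → ∃ D : (𝓞 K)[X], IsDet φ (Φ j) D ∧
      IsSigned n (twistedProduct G F P (fun i => χ i ^ (j i : ℕ)) (supp j)) D)
    (H W : Finset (Fin m) → (ZMod ℓ)[X])
    (hI : ∀ I : Finset (Fin m), I.Nonempty →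
      IsSigned n (PowerSeries.map (Int.castRingHom (ZMod ℓ)) (openProduct G F P I)) (H I) ∧
      IsRatioPolynomial ℓ (H I) (W I) ∧ NoCyclotomic ℓ (W I))
    (hdim : ∀ j, (supp j).Nonempty → (H (supp j)).natDegree = finrank E (U j))
    (k' : Type) [Field k'] [Finite k'] [Algebra k k'] (v v' : Fin m → k'ˣ)
    (j : ∀ i, Fin (ℓ ^ a i)) (hj : (supp j).Nonempty) (g : Module.End E (U j))
    (hg : g ∘ₗ frobenius χ φ Φ v j = frobenius χ φ Φ v' j ∘ₗ g) :
    g ∈ Algebra.adjoin E {Φ j ^ finrank k k'} ∧ (value χ φ v j ≠ value χ φ v' j → g = 0) := by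
  have hr : 0 < finrank k k' := Module.finrank_pos
  have hℓ : ℓ.Prime := Fact.out
  have hone : ∀ i, χ i ^ ℓ ^ a i = 1 := fun i => by rw [← hχ i, pow_orderOf_eq_one]
  obtain ⟨D, hD, hDs⟩ := hΦ j hj
  obtain ⟨hH, hW, hno⟩ := hI _ hj
  have hψ : ∀ i ∈ supp j, (χ i ^ (j i : ℕ)) ^ ℓ ^ a i = 1 := by
    intro i _
    rw [← pow_mul, mul_comm, pow_mul, hone i, one_pow]
  obtain ⟨x, hx, hx0, hxno⟩ := twisted_eigen G F P hP (fun i => χ i ^ (j i : ℕ)) (supp j) a hψ
    hDs φ (Φ j) hD hH hW hno (hdim j hj)
  set e : ℕ := ∏ i, ℓ ^ a i with he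
  have he0 : 0 < e := Finset.prod_pos fun i _ => pow_pos hℓ.pos _
  have hψe : (fun i => χ i ^ (j i : ℕ)) ^ e = 1 := by
    funext i
    rw [Pi.pow_apply, Pi.one_apply]
    obtain ⟨d, hd⟩ := Finset.dvd_prod_of_mem (fun i => ℓ ^ a i) (Finset.mem_univ i)
    rw [he, hd, ← pow_mul, mul_comm (j i : ℕ), mul_assoc, pow_mul, hone i, one_pow]
  have hval : ∀ v : Fin m → k'ˣ, value χ φ v j ^ e = 1 := by
    intro v
    unfold value
    rw [← map_pow, Pool.Agent.H313.GE.value_root _ he0 hψe k' v, map_one]
  have hval0 : ∀ v : Fin m → k'ˣ, value χ φ v j ≠ 0 := by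
    intro v h0
    have h1 := hval v
    rw [h0, zero_pow he0.ne'] at h1
    exact zero_ne_one h1
  exact Pool.Agent.H313.GE.commutant rfl hx hx0 hxno hr (hval0 v) (hval0 v') he0 (hval v)
    (hval v') g hg

end Pool.Agent.Results.MP_677d84_ag.QuotientsOfSelfProducts
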