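import Pool.Agent.X261.MF.Main

/-!
Twists of superelliptic curves over `k(t)` whose Jacobian has rank exactly `m (q - 1)`, where `m + 1` is the
number of primes above a prime `P` of `k[t]` in the branch curve. The definitions of the Jacobian, of the
statement of the Tate conjecture and of the triviality of the Tate-Shafarevich group are in
`Pool.Agent.Y160.SL.Jac`, `IsBasisAt` is in `Pool.Agent.Y160.SL.Fam`.
-/

set_option autoImplicit false

open Polynomial IsDedekindDomain
open scoped Classical

namespace Pool.Agent.Results.MP_677d84_ag.SplitPrimesRanks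

open Pool.Agent.TH115.GD (IsTower)
open Pool.Agent.Y160.SL (Jac TateAt ShaTriv IsBasisAt)

section defs

variable {k : Type} [Field k]

/-- The polynomial `f` in `x` over `k[t]` defines a smooth, absolutely irreducible affine plane curve
whose coordinate ring `R = k[t, x] / (f)` has no units besides the constants and no ideal classes of
order `p` (if the `p`-th power of an ideal is principal, the ideal is principal); `f` is monic in `x`, of
degree prime to `p`, and its derivative with respect to `x` is not zero. -/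
structure IsBranchCurve (p : ℕ) (f : k[X][X]) : Prop where
  monic : f.Monic
  coprime : p.Coprime f.natDegree
  irreducible : ∀ (k' : Type) [Field k'] [Algebra k k'],
    Irreducible (f.map (mapRingHom (algebraMap k k')))
  derivative_ne_zero : derivative f ≠ 0
  smooth : Ideal.span {f, derivative f, f.sum fun i a => C (derivative a) * X ^ i} = ⊤
  dedekind : IsDedekindDomain (AdjoinRoot f)
  ideals : ∀ I : Ideal (AdjoinRoot f), (I ^ p).IsPrincipal → I.IsPrincipal
  units : ∀ u : (AdjoinRoot f)ˣ, ∃ c : k, (u : AdjoinRoot f) = algebraMap k (AdjoinRoot f) c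

/-- The prime `P` of `k[t]` has exactly the `r` primes `g_i(x, t) = 0` above it in the curve
`f(x, t) = 0`: `f - P` is the product of the monic polynomials `g_i`, which are irreducible modulo `P`,
over the field `k[t] / (P)`, and different modulo `P`. -/
structure IsSplitPrime (f : k[X][X]) {r : ℕ} (g : Fin r → k[X][X]) (P : k[X]) : Prop where
  prime : Irreducible P
  eq : f = C P + ∏ i, g i
  monic : ∀ i, (g i).Monic
  irreducible : ∀ i, Irreducible ((g i).map (AdjoinRoot.mk P))
  distinct : ∀ i i', i ≠ i' → (g i).map (AdjoinRoot.mk P) ≠ (g i').map (AdjoinRoot.mk P)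

/-- The polynomial `D ^ n f(x / D, t)` in `x` over `K = k(t)`, where `n` is the degree of `f` in `x`. The
surface `w ^ q = D ^ n f(x / D, t)` is the twist of `w ^ q = f(x, t)` by `D(t) ^ n`. -/
noncomputable def twist (K : Type) [Field K] [Algebra k[X] K] (f : k[X][X]) (D : k[X]) : K[X] :=
  (f.scaleRoots D).map (algebraMap k[X] K)

/-- The conclusions: the Tate conjecture at `p` for the surface `w ^ q = G(x)` over the projective line,
`Ш(J / K)[p ^ ∞] = 0` for the Jacobian `J` of its generic fibre over `K`, and a basis of `J(K)` at `p`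
with `r (q - 1)` elements. -/
def Holds (p q r : ℕ) (k k' F : Type) {K : Type} [Field k] [Field k'] [Field K] [Field F]
    [Algebra K F] [Algebra k[X] K] [IsFractionRing k[X] K] [Algebra k'[X] F]
    [IsFractionRing k'[X] F] (G : K[X]) : Prop :=
  TateAt (F := F) p q k' G ∧ ShaTriv p q k[X] G ∧
    ∃ b : Fin (r * (q - 1)) → Jac q G K, IsBasisAt p b

/-- The polynomial `x ^ 3 + a x ^ 2 + b x + c`. -/
noncomputable def cubic (a b c : k) : k[X] := X ^ 3 + C a * X ^ 2 + C b * X + C c

end defs

theorem holds_of {k k' K F : Type} [Field k] [Field k'] [Field K] [Field F] [Algebra K F]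
    [Algebra k[X] K] [IsFractionRing k[X] K] [Algebra k'[X] F] [IsFractionRing k'[X] F]
    {p q r : ℕ} {G : K[X]} (h : Pool.Agent.Y160.SL.Concl p q r k k' F G) :
    Holds p q r k k' F G := by
  obtain ⟨D, hD1, hD2⟩ := h.basis
  let e : Fin (r * (q - 1)) ≃ Fin r × Fin (q - 1) := finProdFinEquiv.symm
  refine ⟨h.tate, h.sha, fun i => D (e i), hD1.comp _ e.injective, fun n x => ?_⟩
  obtain ⟨y, hy⟩ := hD2 n x
  refine ⟨y, ?_⟩
  have e1 : Set.range (fun i => D (e i)) = Set.range D := e.surjective.range_comp D
  rw [e1]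
  exact hy

theorem ring_of {k : Type} [Field k] {p : ℕ} (hp : p.Prime) {f : k[X][X]}
    (h : IsBranchCurve p f) : ∃ _ : IsDedekindDomain (AdjoinRoot f),
      Pool.Agent.Y160.T7.PropT p k (AdjoinRoot f) :=
  ⟨h.dedekind, by
    let := h.dedekind
    exact Pool.Agent.X261.BC.propT_of_class hp.pos
      (Pool.Agent.X261.BC.class_of_ideal h.ideals) h.units⟩

theorem cubic_branch {k : Type} [Field k] {p : ℕ} (hp : p.Prime) (h3 : p ≠ 3) {a b c : k}
    (h2 : (2 : k) ≠ 0) (hs : (cubic a b c).Separable)
    (hP : ∀ P : (⟨0, a, 0, b, c⟩ : WeierstrassCurve k).toAffine.Point, p • P = 0 → P = 0) :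
    IsBranchCurve p ((cubic a b c).map C - C (X ^ 2)) := by
  have hd : 0 < (Pool.Agent.X261.BC.cub a b c).natDegree := by
    rw [Pool.Agent.X261.BC.cub_deg]
    norm_num
  have hm := Pool.Agent.X261.BC.cub_monic a b c
  obtain ⟨r1, r2, r3⟩ := Pool.Agent.X261.BC.ell_ring h2 hs hp.pos hP
  refine ⟨Pool.Agent.X261.BC.monic_sup hm hd 2, ?_, ?_, ?_, ?_, r1, r2, r3⟩
  · show p.Coprime (Pool.Agent.X261.BC.sup (Pool.Agent.X261.BC.cub a b c) 2).natDegree
    rw [Pool.Agent.X261.BC.natDegree_sup, Pool.Agent.X261.BC.cub_deg]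
    exact (Nat.coprime_primes hp Nat.prime_three).2 h3
  · intro k' _ _
    exact Pool.Agent.X261.BC.irr_closure hs hd one_lt_two k'
  · show derivative (Pool.Agent.X261.BC.sup (Pool.Agent.X261.BC.cub a b c) 2) ≠ 0
    rw [Pool.Agent.X261.BC.derivative_sup, Polynomial.map_ne_zero_iff C_injective]
    intro h0
    rw [Polynomial.Separable] at hs
    have h1 : IsUnit (Pool.Agent.X261.BC.cub a b c) := by
      have h4 : IsCoprime (Pool.Agent.X261.BC.cub a b c) 0 := by
        rw [← h0]
        exact hs
      exact isCoprime_zero_right.1 h4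
    have h5 := natDegree_eq_zero_of_isUnit h1
    omega
  · exact Pool.Agent.X261.BC.smooth_sup hs (by exact_mod_cast h2)

/-- **Ranks and splitting of primes in the branch curve.** Let `p` be a prime number,
`q = p ^ (s + 1)`, `k` a field which contains the `q`-th roots of unity.

1. Let `K = k(t)`, `kb` a separable closure of `k` and `F = kb(t)`. Let `f` be a branch curve of degree `n`
in `x` as in `IsBranchCurve`, `P` a prime of `k[t]` with `m + 1` primes `g_i(x, t) = 0` above it as in
`IsSplitPrime`, so `f = P + ∏ g_i`, and `D = P ^ j` with `q ∣ n j + 1`. Then for the curve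
`w ^ q = D ^ n f(x / D, t)` over `K` with the Jacobian `J` we have `Ш(J / K)[p ^ ∞] = 0`, there is a basis
of `J(K)` at `p` with `m (q - 1)` elements, so the rank of `J(K)` is `m (q - 1)`, and the Tate conjecture
at `p` holds over `k` for the surface of this equation.

2. Let the characteristic of `k` be not two, `p ≠ 3`, and let `Γ : y ^ 2 = g(x)` be an elliptic curve over
`k`, `g = x ^ 3 + a x ^ 2 + b x + c`, without a rational point of order `p`. Let `e` in `k` be not a
square, and suppose that `g - e` has three different roots `r_i` in `k`. Then 1. holds with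
`f = g(x) - t ^ 2`, `P = e - t ^ 2` and `g_i = x - r_i`: the rank for `w ^ q = D ^ 3 g(x / D) - D ^ 3 t ^ 2`
is `2 (q - 1)`. -/
theorem result (p s : ℕ) (hp : p.Prime) (k : Type) [Field k] (ζ : k)
    (hζ : IsPrimitiveRoot ζ (p ^ (s + 1))) :
    (∀ f : k[X][X], IsBranchCurve p f → ∀ (m : ℕ) (g : Fin (m + 1) → k[X][X]) (P : k[X]),
      IsSplitPrime f g P → ∀ j : ℕ, p ^ (s + 1) ∣ f.natDegree * j + 1 →
      ∀ (kb K F : Type) [Field kb] [Algebra k kb] [Field K] [Algebra k[X] K]
        [IsFractionRing k[X] K] [Field F] [Algebra kb[X] F] [IsFractionRing kb[X] F] [Algebra K F],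
        IsTower k kb K F → Holds p (p ^ (s + 1)) m k kb F (twist K f (P ^ j))) ∧
    (∀ a b c : k, (2 : k) ≠ 0 → p ≠ 3 → (cubic a b c).Separable →
      (∀ P : (⟨0, a, 0, b, c⟩ : WeierstrassCurve k).toAffine.Point, p • P = 0 → P = 0) →
      ∀ e : k, (∀ v : k, e ≠ v ^ 2) → ∀ r : Fin 3 → k, Function.Injective r →
      cubic a b c - C e = ∏ i, (X - C (r i)) →
      IsBranchCurve p ((cubic a b c).map C - C (X ^ 2)) ∧
        IsSplitPrime ((cubic a b c).map C - C (X ^ 2)) (fun i => X - C (C (r i))) (C e - X ^ 2)) := by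
  refine ⟨?_, ?_⟩
  · intro f h m g P hS j hj kb K F _ _ _ _ _ _ _ _ _ hT
    exact holds_of (Pool.Agent.X261.MF.mainG hT hp hζ h.monic h.coprime (h.irreducible kb)
      h.derivative_ne_zero h.smooth (ring_of hp h) hS.prime hS.monic hS.eq hS.irreducible
      hS.distinct hj)
  · intro a b c h2 h3 hs hP e he r hr hg
    exact ⟨cubic_branch hp h3 h2 hs hP, Pool.Agent.X261.MF.PQ_irr he,
      Pool.Agent.X261.MF.sup_fac hg, fun i => monic_X_sub_C _,
      fun i => Pool.Agent.X261.MF.lin_irr he i, fun i i' h => Pool.Agent.X261.MF.lin_ne he hr h⟩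

end Pool.Agent.Results.MP_677d84_ag.SplitPrimesRanks
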